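import Pool.Agent.Helper92.LV.Stmts

set_option autoImplicit false

open Filter Topology NumberField

namespace Pool.Agent.Helper92.LV

open Pool.Agent.Helper42.LS Pool.Agent.Helper42.LK Pool.Agent.Helper54.LS

theorem ker_B2 (x : ℝ) : |B2 x| ≤ 1 / 6 := by
  have h0 := Int.fract_nonneg x
  have h1 := (Int.fract_lt_one x).le
  unfold B2
  rw [abs_le]
  constructor
  · nlinarith [sq_nonneg (Int.fract x - 1 / 2)]
  · nlinarith

theorem ker_bt_zero (τ b : ℝ) : bt τ b 0 = 0 := by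
  unfold bt wt wg
  simp

/-- size of the weights beyond `1/b` -/
theorem ker_bt_abs (τ b : ℝ) (k : ℕ) (hτ : 0 ≤ τ) (hτ1 : τ ≤ 1) (hb : 0 < b)
    (hk : 1 ≤ b * k) : |bt τ b k| ≤ 16 / (k : ℝ) ^ 4 := by
  have hk0 : (0 : ℝ) < k := by
    by_contra h
    have h1 : (k : ℝ) = 0 := le_antisymm (not_lt.1 h) (Nat.cast_nonneg k)
    rw [h1, mul_zero] at hk
    linarith
  obtain ⟨c, hc⟩ : ∃ c : ℝ, c = 1 - Real.cos (2 * Real.pi * (b * k)) := ⟨_, rfl⟩
  have hc0 : 0 ≤ c := by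
    rw [hc]
    linarith [Real.cos_le_one (2 * Real.pi * (b * k))]
  have hc2 : c ≤ 2 := by
    rw [hc]
    linarith [Real.neg_one_le_cos (2 * Real.pi * (b * k))]
  have hc8 : c ^ 3 ≤ 8 := by
    have := pow_le_pow_left₀ hc0 hc2 3
    norm_num at this
    exact this
  have hw : wt b k = c ^ 3 / (k : ℝ) ^ 4 := by
    unfold wt
    rw [hc]
  have hg : wg b k = c ^ 3 / (k : ℝ) ^ 6 := by
    unfold wg
    rw [hc]
  have h1 : 0 ≤ c ^ 3 / (k : ℝ) ^ 4 := by positivity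
  have h2 : c ^ 3 / (k : ℝ) ^ 4 ≤ 8 / (k : ℝ) ^ 4 :=
    div_le_div_of_nonneg_right hc8 (by positivity)
  have h3 : τ / b ^ 2 * (c ^ 3 / (k : ℝ) ^ 6) = (τ / (b * k) ^ 2) * (c ^ 3 / (k : ℝ) ^ 4) := by
    field_simp
  have h4 : 0 ≤ τ / (b * k) ^ 2 := by positivity
  have h5 : τ / (b * k) ^ 2 ≤ 1 := by
    rw [div_le_one (by positivity)]
    have : (1 : ℝ) ≤ (b * k) ^ 2 := one_le_pow₀ hk
    linarith
  have h6 : 0 ≤ (τ / (b * k) ^ 2) * (c ^ 3 / (k : ℝ) ^ 4) := mul_nonneg h4 h1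
  have h7 : (τ / (b * k) ^ 2) * (c ^ 3 / (k : ℝ) ^ 4) ≤ 8 / (k : ℝ) ^ 4 := by
    calc (τ / (b * k) ^ 2) * (c ^ 3 / (k : ℝ) ^ 4) ≤ 1 * (c ^ 3 / (k : ℝ) ^ 4) :=
          mul_le_mul_of_nonneg_right h5 h1
      _ ≤ 8 / (k : ℝ) ^ 4 := by rw [one_mul]; exact h2
  have h8 : 16 / (k : ℝ) ^ 4 = 8 / (k : ℝ) ^ 4 + 8 / (k : ℝ) ^ 4 := by ring
  have h9 : (0 : ℝ) ≤ 8 / (k : ℝ) ^ 4 := by positivity
  unfold bt
  rw [hw, hg, h3, abs_le, h8]
  constructor <;> linarith

/-- tails over multiples -/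
theorem ker_tail (τ b : ℝ) (hτ : 0 ≤ τ) (hτ1 : τ ≤ 1) (hb : 0 < b) (J m : ℕ) (hJ : 1 ≤ J)
    (hbJ : 1 ≤ b * J) (hm : 1 ≤ m) :
    ∑' i : ℕ, |bt τ b (m * (i + (J / m + 1)))| ≤ 32 / (m * (J : ℝ) ^ 3) := by
  have hmR : (0 : ℝ) < m := by exact_mod_cast hm
  have hJR : (0 : ℝ) < J := by exact_mod_cast hJ
  obtain ⟨I, hI⟩ : ∃ I, I = J / m := ⟨_, rfl⟩
  rw [← hI]
  have hIJ : J < m * (I + 1) := by
    rw [hI]
    exact Nat.lt_mul_div_succ J hm
  have hterm : ∀ i : ℕ, |bt τ b (m * (i + (I + 1)))| ≤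
      32 / ((J : ℝ) ^ 2 * (m : ℝ) ^ 2) * (1 / ((i : ℝ) + (I + 1)) - 1 / ((i : ℝ) + 1 + (I + 1))) := by
    intro i
    obtain ⟨k, hk⟩ : ∃ k, k = m * (i + (I + 1)) := ⟨_, rfl⟩
    rw [← hk]
    have hkJ : J ≤ k := by
      rw [hk]
      exact hIJ.le.trans (Nat.mul_le_mul_left m (by omega))
    have hkJR : (J : ℝ) ≤ k := by exact_mod_cast hkJ
    have hk0 : (0 : ℝ) < k := lt_of_lt_of_le hJR hkJR
    have h1 : |bt τ b k| ≤ 16 / (k : ℝ) ^ 4 :=
      ker_bt_abs τ b k hτ hτ1 hb (hbJ.trans (mul_le_mul_of_nonneg_left hkJR hb.le))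
    have hkx : (k : ℝ) = m * ((i : ℝ) + (I + 1)) := by
      rw [hk]
      push_cast
      ring
    obtain ⟨x, hx⟩ : ∃ x : ℝ, x = (i : ℝ) + (I + 1) := ⟨_, rfl⟩
    have hx1 : 1 ≤ x := by
      rw [hx]
      have h1 : (0 : ℝ) ≤ i := Nat.cast_nonneg i
      have h2 : (0 : ℝ) ≤ I := Nat.cast_nonneg I
      linarith
    have hx' : (i : ℝ) + 1 + (I + 1) = x + 1 := by rw [hx]; ring
    rw [hx', ← hx]
    rw [← hx] at hkx
    have h2 : 16 / (k : ℝ) ^ 4 ≤ 16 / ((J : ℝ) ^ 2 * (k : ℝ) ^ 2) := by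
      apply div_le_div_of_nonneg_left (by norm_num) (by positivity)
      have : (J : ℝ) ^ 2 ≤ (k : ℝ) ^ 2 := pow_le_pow_left₀ hJR.le hkJR 2
      nlinarith [sq_nonneg (k : ℝ)]
    have h3 : 16 / ((J : ℝ) ^ 2 * (k : ℝ) ^ 2) ≤
        32 / ((J : ℝ) ^ 2 * (m : ℝ) ^ 2) * (1 / x - 1 / (x + 1)) := by
      rw [hkx]
      have e1 : 32 / ((J : ℝ) ^ 2 * (m : ℝ) ^ 2) * (1 / x - 1 / (x + 1)) =
          16 / ((J : ℝ) ^ 2 * (m : ℝ) ^ 2) * (2 / (x * (x + 1))) := by
        have : x ≠ 0 := by positivity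
        have : x + 1 ≠ 0 := by positivity
        field_simp
        ring
      have e2 : 16 / ((J : ℝ) ^ 2 * ((m : ℝ) * x) ^ 2) =
          16 / ((J : ℝ) ^ 2 * (m : ℝ) ^ 2) * (1 / x ^ 2) := by
        have : x ≠ 0 := by positivity
        field_simp
      rw [e1, e2]
      apply mul_le_mul_of_nonneg_left _ (by positivity)
      rw [div_le_div_iff₀ (by positivity) (by positivity)]
      nlinarith
    exact h1.trans (h2.trans h3)
  refine Real.tsum_le_of_sum_range_le (fun i => abs_nonneg _) ?_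
  intro N
  have hsum : ∑ i ∈ Finset.range N, |bt τ b (m * (i + (I + 1)))| ≤
      32 / ((J : ℝ) ^ 2 * (m : ℝ) ^ 2) * (1 / ((I : ℝ) + 1) - 1 / ((N : ℝ) + (I + 1))) := by
    induction N with
    | zero => simp
    | succ N ih =>
      rw [Finset.sum_range_succ]
      have h1 := hterm N
      push_cast
      have h2 : 32 / ((J : ℝ) ^ 2 * (m : ℝ) ^ 2) * (1 / ((I : ℝ) + 1) - 1 / ((N : ℝ) + (I + 1))) +
        32 / ((J : ℝ) ^ 2 * (m : ℝ) ^ 2) * (1 / ((N : ℝ) + (I + 1)) - 1 / ((N : ℝ) + 1 + (I + 1))) =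
        32 / ((J : ℝ) ^ 2 * (m : ℝ) ^ 2) * (1 / ((I : ℝ) + 1) - 1 / ((N : ℝ) + 1 + (I + 1))) := by
        ring
      linarith
  have hI0 : (0 : ℝ) ≤ I := Nat.cast_nonneg I
  have hN0 : (0 : ℝ) ≤ N := Nat.cast_nonneg N
  have h4 : 1 / ((I : ℝ) + 1) ≤ m / J := by
    rw [div_le_div_iff₀ (by positivity) hJR]
    have : (J : ℝ) < m * (I + 1) := by exact_mod_cast hIJ
    linarith
  have h5 : 0 ≤ 1 / ((N : ℝ) + (I + 1)) := by positivity
  calc ∑ i ∈ Finset.range N, |bt τ b (m * (i + (I + 1)))|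
      ≤ 32 / ((J : ℝ) ^ 2 * (m : ℝ) ^ 2) * (1 / ((I : ℝ) + 1) - 1 / ((N : ℝ) + (I + 1))) := hsum
    _ ≤ 32 / ((J : ℝ) ^ 2 * (m : ℝ) ^ 2) * (m / J) := by
        apply mul_le_mul_of_nonneg_left _ (by positivity)
        linarith
    _ = 32 / (m * (J : ℝ) ^ 3) := by
        field_simp

theorem ker_filter (J m : ℕ) (hm : 1 ≤ m) (F : ℕ → ℝ) :
    ∑ k ∈ (Finset.Icc 1 J).filter (fun k => m ∣ k), F k =
      ∑ i ∈ Finset.Icc 1 (J / m), F (m * i) := by
  refine (Finset.sum_nbij (fun i => m * i) ?_ ?_ ?_ ?_).symm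
  · intro i hi
    rw [Finset.mem_Icc] at hi
    rw [Finset.mem_filter, Finset.mem_Icc]
    refine ⟨⟨Nat.mul_pos hm hi.1, ?_⟩, Dvd.intro i rfl⟩
    exact (Nat.mul_le_mul_left m hi.2).trans (Nat.mul_div_le J m)
  · intro i _ j _ h
    exact Nat.eq_of_mul_eq_mul_left hm h
  · intro k hk
    rw [Finset.mem_coe, Finset.mem_filter, Finset.mem_Icc] at hk
    obtain ⟨⟨h1, h2⟩, i, rfl⟩ := hk
    refine ⟨i, ?_, rfl⟩
    rw [Finset.mem_coe, Finset.mem_Icc]
    refine ⟨?_, ?_⟩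
    · rcases Nat.eq_zero_or_pos i with h | h
      · subst h
        omega
      · exact h
    · rw [Nat.le_div_iff_mul_le hm, mul_comm]
      exact h2
  · intro i _
    rfl

theorem ker_range (I : ℕ) (F : ℕ → ℝ) (h0 : F 0 = 0) :
    ∑ i ∈ Finset.Icc 1 I, F i = ∑ i ∈ Finset.range (I + 1), F i := by
  rw [Finset.sum_range_succ' F I, h0, add_zero]
  have h1 : Finset.Icc 1 I = Finset.Ico 1 (I + 1) := by
    ext i
    rw [Finset.mem_Icc, Finset.mem_Ico]
    omega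
  rw [h1, Finset.sum_Ico_eq_sum_range, Nat.add_sub_cancel]
  apply Finset.sum_congr rfl
  intro i _
  rw [add_comm]

theorem st_KER (h1 : ST_BT) : ST_KER := by
  obtain ⟨τ, c₁, C₁, hτ, hτ9, hc₁, hC₁, hBT⟩ := h1
  refine ⟨min (1 / 6) (c₁ / 32), c₁ / 2, C₁ + 2, lt_min (by norm_num) (by positivity),
    min_le_left _ _, by positivity, by positivity, ?_⟩
  intro b hb hb0
  have hb6 : b ≤ 1 / 6 := hb0.trans (min_le_left _ _)
  have hbc : b ≤ c₁ / 32 := hb0.trans (min_le_right _ _)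
  obtain ⟨hs, hs1, hpos, hq, hgain, hdiv⟩ := hBT b hb hb6
  have hbt : Summable (bt τ b) := Summable.of_abs hs
  obtain ⟨J, hJ⟩ : ∃ J : ℕ, J = ⌈1 / b ^ 2⌉₊ := ⟨_, rfl⟩
  have hJge : 1 / b ^ 2 ≤ (J : ℝ) := by
    rw [hJ]
    exact Nat.le_ceil _
  have hb2 : (1 : ℝ) ≤ 1 / b ^ 2 := by
    rw [le_div_iff₀ (by positivity)]
    nlinarith
  have hJ1R : (1 : ℝ) ≤ J := hb2.trans hJge
  have hJ1 : 1 ≤ J := by exact_mod_cast hJ1R
  have hJR : (0 : ℝ) < J := by linarith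
  have hbJ2 : 1 ≤ b ^ 2 * J := by
    rw [div_le_iff₀ (by positivity)] at hJge
    linarith
  have hbJ : 1 ≤ b * J := by
    have : b ^ 2 * J ≤ b * J := by
      apply mul_le_mul_of_nonneg_right _ hJR.le
      nlinarith
    linarith
  have hJ3 : 1 / (J : ℝ) ^ 3 ≤ b ^ 6 := by
    rw [div_le_iff₀ (by positivity)]
    have h2 : (1 : ℝ) ≤ (b ^ 2 * J) ^ 3 := one_le_pow₀ hbJ2
    calc (1 : ℝ) ≤ (b ^ 2 * J) ^ 3 := h2
      _ = b ^ 6 * (J : ℝ) ^ 3 := by ring
  have htail : ∀ m : ℕ, 1 ≤ m →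
      ∑' i : ℕ, |bt τ b (m * (i + (J / m + 1)))| ≤ 32 * b ^ 6 / m := by
    intro m hm
    have hmR : (0 : ℝ) < m := by exact_mod_cast hm
    refine (ker_tail τ b hτ.le (by linarith) hb J m hJ1 hbJ hm).trans ?_
    have h2 : 32 / (m * (J : ℝ) ^ 3) = 32 * (1 / (J : ℝ) ^ 3) / m := by
      field_simp
    rw [h2]
    apply div_le_div_of_nonneg_right _ hmR.le
    linarith
  refine ⟨J, bt τ b, hJ1, ?_, ?_, ?_, ?_, ?_⟩
  · -- divisor condition
    intro m hm
    have hmR : (0 : ℝ) < m := by exact_mod_cast hm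
    rcases le_or_gt (3 * b * m) 1 with h3 | h3
    · rw [ker_filter J m hm, ker_range (J / m) (fun i => bt τ b (m * i))
        (by simp only [mul_zero]; exact ker_bt_zero τ b)]
      have hinj : Function.Injective (fun i : ℕ => m * i) :=
        fun i j h => Nat.eq_of_mul_eq_mul_left hm h
      have hsm : Summable (fun i : ℕ => bt τ b (m * i)) := hbt.comp_injective hinj
      have hsma : Summable (fun i : ℕ => |bt τ b (m * i)|) := hs.comp_injective hinj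
      have h4 := hsm.sum_add_tsum_nat_add (J / m + 1)
      have h5 := hdiv m hm h3
      have hsh : Summable (fun i : ℕ => |bt τ b (m * (i + (J / m + 1)))|) :=
        (summable_nat_add_iff (f := fun i : ℕ => |bt τ b (m * i)|) (J / m + 1)).2 hsma
      have h6 : ∑' i : ℕ, bt τ b (m * (i + (J / m + 1))) ≤
          ∑' i : ℕ, |bt τ b (m * (i + (J / m + 1)))| :=
        (Summable.of_abs hsh).tsum_le_tsum (fun i => le_abs_self _) hsh
      have h7 := htail m hm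
      have h8 : 32 * b ^ 6 / m ≤ c₁ * b ^ 3 / m := by
        apply div_le_div_of_nonneg_right _ hmR.le
        have h9 : 32 * b ^ 6 = (32 * b ^ 3) * b ^ 3 := by ring
        rw [h9]
        apply mul_le_mul_of_nonneg_right _ (by positivity)
        have : b ^ 3 ≤ b := by
          have : b ^ 3 = b * (b * b) := by ring
          rw [this]
          nlinarith [mul_pos hb hb]
        linarith

      linarith
    · apply Finset.sum_nonneg
      intro k hk
      rw [Finset.mem_filter, Finset.mem_Icc] at hk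
      apply hpos
      have hmk : (m : ℝ) ≤ k := by exact_mod_cast Nat.le_of_dvd hk.1.1 hk.2
      have h4 : 1 / 3 ≤ b * k := by
        have : b * m ≤ b * k := mul_le_mul_of_nonneg_left hmk hb.le
        linarith
      have h5 : (1 / 3 : ℝ) ^ 2 ≤ (b * k) ^ 2 := pow_le_pow_left₀ (by norm_num) h4 2
      norm_num at h5
      linarith
  · -- logarithm
    have h2 : (J : ℝ) ≤ 2 * (1 / b ^ 2) := by
      have h3 : (J : ℝ) < 1 / b ^ 2 + 1 := by
        rw [hJ]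
        exact Nat.ceil_lt_add_one (by positivity)
      linarith
    have h3 : Real.log J ≤ Real.log 2 + 2 * Real.log (1 / b) := by
      have h4 : (2 : ℝ) * (1 / b ^ 2) = 2 * (1 / b) ^ 2 := by
        rw [one_div_pow]
      calc Real.log J ≤ Real.log (2 * (1 / b) ^ 2) := by
            apply Real.log_le_log hJR
            rw [← h4]
            exact h2
        _ = Real.log 2 + 2 * Real.log (1 / b) := by
            rw [Real.log_mul (by norm_num) (by positivity), Real.log_pow]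
            push_cast
            ring
    have h4 : Real.log 2 ≤ 1 := by
      have := Real.log_two_lt_d9
      linarith
    have h5 : 0 ≤ Real.log (1 / b) := by
      apply Real.log_nonneg
      rw [le_div_iff₀ hb]
      linarith
    nlinarith
  · have h2 : ∑ j ∈ Finset.Icc 1 J, |bt τ b j| ≤ ∑' j : ℕ, |bt τ b j| :=
      hs.sum_le_tsum _ (fun j _ => abs_nonneg _)
    have h3 : 0 ≤ b ^ 3 := by positivity
    nlinarith
  · have h2 := hq J
    nlinarith
  · intro n α hn h3n hα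
    have h2 := hgain n α hn h3n hα
    have hsB : Summable (fun j : ℕ => |bt τ b j * B2 (j * α)|) := by
      refine Summable.of_nonneg_of_le (fun j => abs_nonneg _) (fun j => ?_) hs
      rw [abs_mul]
      have := ker_B2 (j * α)
      nlinarith [abs_nonneg (bt τ b j), abs_nonneg (B2 (j * α))]
    have hsB' : Summable (fun j : ℕ => bt τ b j * B2 (j * α)) := Summable.of_abs hsB
    have h4 := hsB'.sum_add_tsum_nat_add (J + 1)
    have h5 : ∑ j ∈ Finset.Icc 1 J, bt τ b j * B2 (j * α) =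
        ∑ j ∈ Finset.range (J + 1), bt τ b j * B2 (j * α) := by
      refine ker_range J (fun j => bt τ b j * B2 (j * α)) ?_
      simp only [ker_bt_zero, zero_mul]
    rw [h5]
    have h7 := htail 1 le_rfl
    simp only [one_mul, Nat.div_one, Nat.cast_one, div_one] at h7
    have hsh0 : Summable (fun i : ℕ => |bt τ b (i + (J + 1))|) :=
      (summable_nat_add_iff (f := fun i : ℕ => |bt τ b i|) (J + 1)).2 hs
    have hsh1 : Summable (fun i : ℕ => bt τ b (i + (J + 1)) * B2 (((i + (J + 1) : ℕ) : ℝ) * α)) :=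
      (summable_nat_add_iff (f := fun i : ℕ => bt τ b i * B2 ((i : ℝ) * α)) (J + 1)).2 hsB'
    have h6 : ∑' i : ℕ, bt τ b (i + (J + 1)) * B2 (((i + (J + 1) : ℕ) : ℝ) * α) ≤
        ∑' i : ℕ, 1 / 6 * |bt τ b (i + (J + 1))| := by
      refine hsh1.tsum_le_tsum (fun i => ?_) (hsh0.mul_left _)
      have h8 := ker_B2 (((i + (J + 1) : ℕ) : ℝ) * α)
      refine (le_abs_self _).trans ?_
      rw [abs_mul, mul_comm]
      exact mul_le_mul_of_nonneg_right h8 (abs_nonneg _)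
    rw [tsum_mul_left] at h6
    have h9 : 12 * b ^ 6 ≤ c₁ * b ^ 4 := by
      have h10 : 12 * b ^ 6 = (12 * b ^ 2) * b ^ 4 := by ring
      rw [h10]
      apply mul_le_mul_of_nonneg_right _ (by positivity)
      nlinarith
    have hb6' : 0 ≤ b ^ 6 := by positivity
    linarith

end Pool.Agent.Helper92.LV
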